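import Pool.Agent.Helper156.CWilf.Orders

/-!
# The number of orders compatible with a word
-/

set_option autoImplicit false

open scoped BigOperators

namespace Pool.Agent.Helper156.CWilf

theorem fibre_prim {k n : ℕ} (ε : Bool) {w : ℕ → ℕ} (hw : PerP k (n + 1) w)
    (hd : mp w = n + 1) :
    ∃ ρ0 : Equiv.Perm (Fin (n + 1)), ∀ ρ, Compat ε w ρ ↔ ρ = ρ0 := by
  obtain ⟨ρ0, h0⟩ := build (n := n) (fun t => X ε k w t)
    (fun s t => by rw [X_eq_iff ε (Nat.succ_pos n) hw, hd])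
  refine ⟨ρ0, fun ρ => ⟨fun hc => ?_, ?_⟩⟩
  · symm
    apply perm_unique
    intro s t h
    exact order_of_X' hw hc ((h0 s t).1 h)
  · rintro rfl
    intro s t h
    rw [h0] at h
    refine ⟨?_, ?_⟩
    · by_contra h1
      exact absurd (X_lt ε hw (not_le.1 h1)) (not_lt.2 h.le)
    · intro h1
      rw [h0]
      rcases sz_cases ε (w s) with ⟨hs, _⟩ | ⟨hs, _⟩
      · exact ⟨fun _ => hs, fun _ => (X_pos ε hw h1 hs).1 h⟩
      · constructor
        · intro h2
          exact absurd ((X_neg ε hw h1 hs).1 h) (not_lt.2 h2.le)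
        · intro h2
          rw [hs] at h2
          exact absurd h2 (by simp)

theorem chi_half {k d : ℕ} (hd0 : 0 < d) {ε : Bool} {w : ℕ → ℕ} (hw : PerP k (2 * d) w)
    (hp : ∀ t, w (t + d) = w t) (hchi : chi ε d w = -1) (s : ℕ) :
    (s % (2 * d) = s % d ∧ chi ε s w = chi ε (s % d) w) ∨
      (s % (2 * d) = s % d + d ∧ chi ε s w = - chi ε (s % d) w) := by
  have h1 : chi ε s w = chi ε (s % (2 * d)) w := by
    conv_lhs => rw [← Nat.div_add_mod s (2 * d)]
    rw [chi_per_add ε (2 * d * (s / (2 * d))) _ w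
      (per_of_dvd (Dvd.intro _ rfl : 2 * d ∣ 2 * d * (s / (2 * d))) hw.2),
      chi_mul ε (2 * d) _ w hw.2, mul_comm 2 d, chi_mul ε d 2 w hp, hchi]
    norm_num
  have h2 : s % (2 * d) % d = s % d := Nat.mod_mod_of_dvd s (Dvd.intro_left 2 rfl)
  have h3 : s % (2 * d) < 2 * d := Nat.mod_lt _ (by omega)
  rw [h1]
  by_cases h4 : s % (2 * d) < d
  · left
    rw [Nat.mod_eq_of_lt h4] at h2
    exact ⟨h2, by rw [h2]⟩
  · right
    have h5 : s % (2 * d) = s % d + d := by
      rw [Nat.mod_eq_sub_mod (not_lt.1 h4), Nat.mod_eq_of_lt (by omega)] at h2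
      omega
    refine ⟨h5, ?_⟩
    rw [h5, add_comm, chi_per_add ε d _ w hp, hchi]
    ring

theorem chi_half_iff {k d : ℕ} (hd0 : 0 < d) {ε : Bool} {w : ℕ → ℕ} (hw : PerP k (2 * d) w)
    (hp : ∀ t, w (t + d) = w t) (hchi : chi ε d w = -1) {s t : ℕ} (hst : s % d = t % d) :
    (chi ε s w = chi ε t w ↔ s % (2 * d) = t % (2 * d)) := by
  have hs := chi_half hd0 hw hp hchi s
  have ht := chi_half hd0 hw hp hchi t
  rw [← hst] at ht
  rcases hs with ⟨a1, a2⟩ | ⟨a1, a2⟩ <;> rcases ht with ⟨b1, b2⟩ | ⟨b1, b2⟩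
  · rw [a1, a2, b1, b2]
    simp
  · rw [a1, a2, b1, b2]
    rcases chi_cases ε (s % d) w with h | h <;> rw [h] <;> constructor <;> intro h2 <;> omega
  · rw [a1, a2, b1, b2]
    rcases chi_cases ε (s % d) w with h | h <;> rw [h] <;> constructor <;> intro h2 <;> omega
  · rw [a1, a2, b1, b2]
    simp

theorem half_other {k d : ℕ} (hd0 : 0 < d) {ε : Bool} {w : ℕ → ℕ} (hw : PerP k (2 * d) w)
    (hp : ∀ t, w (t + d) = w t) (hchi : chi ε d w = -1) {s t : ℕ} (hst : s % d = t % d)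
    (hne : chi ε s w ≠ chi ε t w) :
    (s + d) % (2 * d) = t % (2 * d) ∧ chi ε t w = - chi ε s w := by
  have hs := chi_half hd0 hw hp hchi s
  have ht := chi_half hd0 hw hp hchi t
  rw [← hst] at ht
  have hr : s % d < d := Nat.mod_lt _ hd0
  rcases hs with ⟨a1, a2⟩ | ⟨a1, a2⟩ <;> rcases ht with ⟨b1, b2⟩ | ⟨b1, b2⟩
  · exact absurd (a2.trans b2.symm) hne
  · refine ⟨?_, by rw [b2, a2]⟩
    rw [Nat.add_mod, a1, b1, Nat.mod_eq_of_lt (show d < 2 * d by omega),
      Nat.mod_eq_of_lt (show s % d + d < 2 * d by omega)]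
  · refine ⟨?_, by rw [b2, a2, neg_neg]⟩
    rw [Nat.add_mod, a1, b1, Nat.mod_eq_of_lt (show d < 2 * d by omega)]
    have : s % d + d + d = s % d + 2 * d := by ring
    rw [this, Nat.add_mod_right, Nat.mod_eq_of_lt (by omega)]
  · exact absurd (a2.trans b2.symm) hne

theorem fibre_exist {k n : ℕ} (ε : Bool) {w : ℕ → ℕ} (hw : PerP k (n + 1) w)
    (hd : 2 * mp w = n + 1) (hchi : chi ε (mp w) w = -1) (b : ℤ) (hb : b = 1 ∨ b = -1) :
    ∃ ρ : Equiv.Perm (Fin (n + 1)), Compat ε w ρ ∧ ∀ s t, at' ρ s < at' ρ t ↔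
      X ε k w s < X ε k w t ∨ (X ε k w s = X ε k w t ∧ b * chi ε s w < b * chi ε t w) := by
  have hd0 : 0 < mp w := by omega
  have hp := mp_per w
  have hw2 : PerP k (2 * mp w) w := by rw [hd]; exact hw
  have hb0 : b ≠ 0 := by rcases hb with h | h <;> rw [h] <;> norm_num
  obtain ⟨ρ, h0⟩ := build (n := n) (fun t => toLex (X ε k w t, b * chi ε t w)) (by
    intro s t
    show toLex (X ε k w s, b * chi ε s w) = toLex (X ε k w t, b * chi ε t w) ↔ _
    rw [toLex_inj, Prod.mk.injEq, X_eq_iff ε (Nat.succ_pos n) hw, mul_right_inj' hb0]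
    constructor
    · rintro ⟨h1, h2⟩
      rw [← hd]
      exact (chi_half_iff hd0 hw2 hp hchi h1).1 h2
    · intro h
      have h1 : s % mp w = t % mp w := by
        rw [← hd] at h
        rw [← Nat.mod_mod_of_dvd s (Dvd.intro_left 2 rfl : mp w ∣ 2 * mp w), h,
          Nat.mod_mod_of_dvd t (Dvd.intro_left 2 rfl : mp w ∣ 2 * mp w)]
      refine ⟨h1, ?_⟩
      rw [← hd] at h
      exact (chi_half_iff hd0 hw2 hp hchi h1).2 h)
  have h1 : ∀ s t, at' ρ s < at' ρ t ↔
      X ε k w s < X ε k w t ∨ (X ε k w s = X ε k w t ∧ b * chi ε s w < b * chi ε t w) := by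
    intro s t
    rw [h0]
    exact Prod.Lex.toLex_lt_toLex
  refine ⟨ρ, ?_, h1⟩
  intro s t h
  rw [h1] at h
  rw [h1]
  rcases h with h | ⟨h, h'⟩
  · refine ⟨?_, ?_⟩
    · by_contra h2
      exact absurd (X_lt ε hw (not_le.1 h2)) (not_lt.2 h.le)
    · intro h2
      rcases sz_cases ε (w s) with ⟨hs, _⟩ | ⟨hs, _⟩
      · exact ⟨fun _ => hs, fun _ => Or.inl ((X_pos ε hw h2 hs).1 h)⟩
      · have h4 := (X_neg ε hw h2 hs).1 h
        constructor
        · rintro (h3 | ⟨h3, _⟩)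
          · exact absurd h4 (not_lt.2 h3.le)
          · exact absurd h3 h4.ne'
        · intro h3
          rw [hs] at h3
          exact absurd h3 (by simp)
  · have e0 : w s = w t := X_eq_letters ε hw h 0
    refine ⟨e0.le, fun _ => ?_⟩
    have h5 := X_eq_succ ε hw h
    rw [chi_succ, chi_succ, ← e0]
    rcases sz_cases ε (w s) with ⟨hs, hz⟩ | ⟨hs, hz⟩
    · rw [hz, mul_one, mul_one]
      exact ⟨fun _ => hs, fun _ => Or.inr ⟨h5, h'⟩⟩
    · rw [hz]
      constructor
      · rintro (h3 | ⟨_, h3⟩)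
        · exact absurd h5 h3.ne
        · exfalso
          linarith
      · intro h3
        rw [hs] at h3
        exact absurd h3 (by simp)

theorem fibre_two {k n : ℕ} (ε : Bool) {w : ℕ → ℕ} (hw : PerP k (n + 1) w)
    (hd : 2 * mp w = n + 1) (hchi : chi ε (mp w) w = -1) :
    ∃ ρ1 ρ2 : Equiv.Perm (Fin (n + 1)), ρ1 ≠ ρ2 ∧ ∀ ρ, Compat ε w ρ ↔ ρ = ρ1 ∨ ρ = ρ2 := by
  have hd0 : 0 < mp w := by omega
  have hp := mp_per w
  have hw2 : PerP k (2 * mp w) w := by rw [hd]; exact hw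
  obtain ⟨ρ1, c1, h1⟩ := fibre_exist ε hw hd hchi 1 (Or.inl rfl)
  obtain ⟨ρ2, c2, h2⟩ := fibre_exist ε hw hd hchi (-1) (Or.inr rfl)
  have hX : X ε k w 0 = X ε k w (mp w) := by
    rw [X_eq_iff ε (Nat.succ_pos n) hw]
    simp
  have hc0 : chi ε 0 w = 1 := by simp [chi]
  refine ⟨ρ1, ρ2, ?_, ?_⟩
  · intro h
    have h3 : at' ρ2 0 < at' ρ2 (mp w) := by
      rw [h2]
      right
      refine ⟨hX, ?_⟩
      rw [hc0, hchi]
      norm_num
    rw [← h, h1] at h3
    rcases h3 with h3 | ⟨_, h3⟩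
    · exact absurd hX h3.ne
    · rw [hc0, hchi] at h3
      norm_num at h3
  · intro ρ
    constructor
    · intro hc
      have hpN : mp w % (n + 1) ≠ 0 := by
        rw [Nat.mod_eq_of_lt (by omega)]
        omega
      have key : ∀ (b : ℤ) (ρ' : Equiv.Perm (Fin (n + 1))),
          (∀ s t, at' ρ' s < at' ρ' t ↔ X ε k w s < X ε k w t ∨
            (X ε k w s = X ε k w t ∧ b * chi ε s w < b * chi ε t w)) →
          (b = 1 ∨ b = -1) → yy ρ (mp w) 0 = -b → ρ' = ρ := by
        intro b ρ' hρ' hb hy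
        apply perm_unique
        intro s t h
        rw [hρ'] at h
        rcases h with h | ⟨h, h'⟩
        · exact order_of_X' hw hc h
        · have h3 : s % mp w = t % mp w := (X_eq_iff ε (Nat.succ_pos n) hw).1 h
          have h4 : chi ε s w ≠ chi ε t w := by
            intro h4
            rw [h4] at h'
            exact absurd h' (lt_irrefl _)
          obtain ⟨h5, h6⟩ := half_other hd0 hw2 hp hchi h3 h4
          rw [hd] at h5
          rw [← (at_eq ρ (s + mp w) t).2 h5]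
          have h7 := yy_chi hc hp hpN s
          rw [hy] at h7
          unfold yy at h7
          by_contra h8
          rw [if_neg h8] at h7
          rw [h6] at h'
          rcases hb with hb | hb <;> rcases chi_cases ε s w with h9 | h9 <;>
            rw [hb, h9] at h7 h' <;> omega
      by_cases h3 : at' ρ 0 < at' ρ (0 + mp w)
      · right
        symm
        apply key (-1) ρ2 h2 (Or.inr rfl)
        unfold yy
        rw [if_pos h3]
        norm_num
      · left
        symm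
        apply key 1 ρ1 h1 (Or.inl rfl)
        unfold yy
        rw [if_neg h3]
    · rintro (rfl | rfl)
      · exact c1
      · exact c2

theorem fibre_none {k n : ℕ} (ε : Bool) {w : ℕ → ℕ} (hw : PerP k (n + 1) w)
    (hd : mp w ≠ n + 1) (hn : ¬ (2 * mp w = n + 1 ∧ chi ε (mp w) w = -1))
    (ρ : Equiv.Perm (Fin (n + 1))) : ¬ Compat ε w ρ := by
  intro hc
  have h1 := mp_dvd hw
  have h2 := Nat.le_of_dvd (Nat.succ_pos n) h1
  have h3 := mp_pos (Nat.succ_pos n) hw
  have hp := mp_per w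
  have h4 : chi ε (mp w) w = -1 := by
    apply chi_eq_neg hc hp
    rw [Nat.mod_eq_of_lt (by omega)]
    omega
  apply hn
  refine ⟨?_, h4⟩
  have h5 : (mp w * 2) % (n + 1) = 0 := by
    by_contra h6
    have h7 := chi_eq_neg hc (per_of_dvd (Dvd.intro 2 rfl : mp w ∣ mp w * 2) hp) h6
    rw [chi_mul ε (mp w) 2 w hp, h4] at h7
    norm_num at h7
  obtain ⟨c, hc'⟩ := Nat.dvd_of_mod_eq_zero h5
  have h6 : c < 2 := by
    by_contra h7
    have : (n + 1) * 2 ≤ (n + 1) * c := Nat.mul_le_mul_left _ (not_lt.1 h7)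
    omega
  have h7 : c ≠ 0 := by
    rintro rfl
    omega
  have h8 : c = 1 := by omega
  rw [h8] at hc'
  omega

open Classical in
theorem card_compat {k n : ℕ} (ε : Bool) {w : ℕ → ℕ} (hw : PerP k (n + 1) w) :
    (Finset.univ.filter (fun ρ : Equiv.Perm (Fin (n + 1)) => Compat ε w ρ)).card
      = A ε (n + 1) w := by
  unfold A
  by_cases h1 : mp w = n + 1
  · rw [if_pos h1]
    obtain ⟨ρ0, h0⟩ := fibre_prim ε hw h1
    rw [Finset.card_eq_one]
    refine ⟨ρ0, ?_⟩
    ext ρ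
    rw [Finset.mem_filter, Finset.mem_singleton, h0]
    simp
  · rw [if_neg h1]
    by_cases h2 : 2 * mp w = n + 1 ∧ chi ε (mp w) w = -1
    · rw [if_pos h2]
      obtain ⟨ρ1, ρ2, hne, h0⟩ := fibre_two ε hw h2.1 h2.2
      rw [Finset.card_eq_two]
      refine ⟨ρ1, ρ2, hne, ?_⟩
      ext ρ
      rw [Finset.mem_filter, Finset.mem_insert, Finset.mem_singleton, h0]
      simp
    · rw [if_neg h2, Finset.card_eq_zero]
      apply Finset.filter_eq_empty_iff.2
      intro ρ _
      exact fibre_none ε hw h1 h2 ρ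

end Pool.Agent.Helper156.CWilf
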