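import Mathlib

/-!
# Counting monotone labellings compatible with a sign sequence
-/

set_option autoImplicit false

open scoped BigOperators

namespace Pool.Agent.Helper156.CWilf

/-- The sign of the letter `i` in the alternating signature with first sign `ε`
(`true` is `+`). -/
def sgn (ε : Bool) (i : ℕ) : Bool := if i % 2 = 0 then ε else !ε

@[simp] theorem sgn_zero (ε : Bool) : sgn ε 0 = ε := rfl

theorem sgn_succ (ε : Bool) (i : ℕ) : sgn ε (i + 1) = sgn (!ε) i := by
  unfold sgn
  rcases Nat.mod_two_eq_zero_or_one i with h | h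
  · have h2 : ¬ (i + 1) % 2 = 0 := by omega
    rw [if_pos h, if_neg h2]
  · have h2 : (i + 1) % 2 = 0 := by omega
    have h3 : ¬ i % 2 = 0 := by omega
    rw [if_neg h3, if_pos h2, Bool.not_not]

/-- Labellings of `n + 1` positions. -/
def LabP (n k : ℕ) (s : Bool) (c : ℕ → Bool) (f : Fin (n + 1) → ℕ) : Prop :=
  (∀ j, f j < k) ∧ Monotone f ∧ ∀ j : Fin n, f j.castSucc = f j.succ →
    sgn s (f j.castSucc) = c j

open Classical in
/-- The finite set of labellings. -/
noncomputable def LabF (n k : ℕ) (s : Bool) (c : ℕ → Bool) : Finset (Fin (n + 1) → ℕ) :=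
  (Fintype.piFinset fun _ => Finset.range k).filter (fun f => LabP n k s c f)

theorem mem_LabF {n k : ℕ} {s : Bool} {c : ℕ → Bool} {f : Fin (n + 1) → ℕ} :
    f ∈ LabF n k s c ↔ LabP n k s c f := by
  classical
  unfold LabF
  rw [Finset.mem_filter, Fintype.mem_piFinset]
  constructor
  · exact fun h => h.2
  · exact fun h => ⟨fun j => Finset.mem_range.2 (h.1 j), h⟩

theorem filter_pos (n k : ℕ) (s : Bool) (c : ℕ → Bool) :
    (LabF n (k + 1) s c).filter (fun f => ¬ f 0 = 0)
      = (LabF n k (!s) c).image (fun g j => g j + 1) := by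
  ext f
  simp only [Finset.mem_filter, Finset.mem_image, mem_LabF]
  constructor
  · rintro ⟨⟨h1, h2, h3⟩, h4⟩
    have hpos : ∀ j, 1 ≤ f j := fun j => le_trans (by omega) (h2 (Fin.zero_le j))
    refine ⟨fun j => f j - 1, ⟨?_, ?_, ?_⟩, ?_⟩
    · intro j
      have := h1 j
      have := hpos j
      show f j - 1 < k
      omega
    · intro a b hab
      have := h2 hab
      show f a - 1 ≤ f b - 1
      omega
    · intro j hj
      have e1 := hpos j.castSucc
      have e2 := hpos j.succ
      have hj' : f j.castSucc - 1 = f j.succ - 1 := hj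
      have h5 := h3 j (by omega)
      show sgn (!s) (f j.castSucc - 1) = c j
      rw [← h5, ← sgn_succ]
      congr 1
      omega
    · funext j
      have := hpos j
      show f j - 1 + 1 = f j
      omega
  · rintro ⟨g, ⟨h1, h2, h3⟩, rfl⟩
    refine ⟨⟨?_, ?_, ?_⟩, ?_⟩
    · intro j
      have := h1 j
      show g j + 1 < k + 1
      omega
    · intro a b hab
      have := h2 hab
      show g a + 1 ≤ g b + 1
      omega
    · intro j hj
      have hj' : g j.castSucc + 1 = g j.succ + 1 := hj
      show sgn s (g j.castSucc + 1) = c j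
      rw [sgn_succ]
      exact h3 j (by omega)
    · show ¬ g 0 + 1 = 0
      omega

theorem filter_zero_eq (n k : ℕ) (s : Bool) (c : ℕ → Bool) (hc : c 0 = s) :
    (LabF (n + 1) (k + 1) s c).filter (fun f => f 0 = 0)
      = (LabF n (k + 1) s (fun j => c (j + 1))).image (fun g => Fin.cons 0 g) := by
  ext f
  simp only [Finset.mem_filter, Finset.mem_image, mem_LabF]
  constructor
  · rintro ⟨⟨h1, h2, h3⟩, h4⟩
    refine ⟨Fin.tail f, ⟨?_, ?_, ?_⟩, ?_⟩
    · intro j
      exact h1 j.succ
    · intro a b hab
      exact h2 (Fin.succ_le_succ_iff.2 hab)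
    · intro j hj
      exact h3 j.succ hj
    · rw [← h4]
      exact Fin.cons_self_tail f
  · rintro ⟨g, ⟨h1, h2, h3⟩, rfl⟩
    refine ⟨⟨?_, ?_, ?_⟩, rfl⟩
    · intro j
      refine Fin.cases ?_ ?_ j
      · simp
      · intro i
        simpa using h1 i
    · intro a b hab
      revert hab
      refine Fin.cases ?_ ?_ a
      · intro _
        simp
      · intro a
        refine Fin.cases ?_ ?_ b
        · intro hab
          exact absurd hab (by simp)
        · intro b hab
          simpa using h2 (Fin.succ_le_succ_iff.1 hab)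
    · intro j
      refine Fin.cases ?_ ?_ j
      · intro _
        simp [hc]
      · intro i hi
        have := h3 i (by simpa using hi)
        simpa using this

theorem filter_zero_ne (n k : ℕ) (s : Bool) (c : ℕ → Bool) (hc : c 0 ≠ s) :
    (LabF (n + 1) (k + 1) s c).filter (fun f => f 0 = 0)
      = (LabF n k (!s) (fun j => c (j + 1))).image
        (fun g => Fin.cons 0 (fun j => g j + 1)) := by
  ext f
  simp only [Finset.mem_filter, Finset.mem_image, mem_LabF]
  constructor
  · rintro ⟨⟨h1, h2, h3⟩, h4⟩
    have hf1 : 1 ≤ f (Fin.succ 0) := by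
      by_contra hcon
      have h5 : f (Fin.succ 0) = 0 := by omega
      have h6 := h3 0 (by
        rw [h5]
        exact h4)
      have h7 : f (Fin.castSucc 0) = 0 := h4
      rw [h7] at h6
      exact hc h6.symm
    have hpos : ∀ j : Fin (n + 1), 1 ≤ f j.succ := fun j =>
      le_trans hf1 (h2 (Fin.succ_le_succ_iff.2 (Fin.zero_le j)))
    refine ⟨fun j => f j.succ - 1, ⟨?_, ?_, ?_⟩, ?_⟩
    · intro j
      have := h1 j.succ
      have := hpos j
      show f j.succ - 1 < k
      omega
    · intro a b hab
      have := h2 (Fin.succ_le_succ_iff.2 hab)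
      show f a.succ - 1 ≤ f b.succ - 1
      omega
    · intro j hj
      have e1 := hpos j.castSucc
      have e2 := hpos j.succ
      have hj' : f j.castSucc.succ - 1 = f j.succ.succ - 1 := hj
      have h5 := h3 j.succ (by
        show f j.castSucc.succ = f j.succ.succ
        omega)
      show sgn (!s) (f j.castSucc.succ - 1) = c (j + 1)
      have h6 : sgn s (f j.castSucc.succ) = c (j + 1) := h5
      rw [← h6, ← sgn_succ]
      congr 1
      omega
    · funext j
      refine Fin.cases ?_ ?_ j
      · exact h4.symm
      · intro i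
        have := hpos i
        show f i.succ - 1 + 1 = f i.succ
        omega
  · rintro ⟨g, ⟨h1, h2, h3⟩, rfl⟩
    refine ⟨⟨?_, ?_, ?_⟩, rfl⟩
    · intro j
      refine Fin.cases ?_ ?_ j
      · simp
      · intro i
        have := h1 i
        simpa using this
    · intro a b hab
      revert hab
      refine Fin.cases ?_ ?_ a
      · intro _
        simp
      · intro a
        refine Fin.cases ?_ ?_ b
        · intro hab
          exact absurd hab (by simp)
        · intro b hab
          simpa using h2 (Fin.succ_le_succ_iff.1 hab)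
    · intro j
      refine Fin.cases ?_ ?_ j
      · intro h
        exfalso
        simp at h
      · intro i hi
        have hi' : g i.castSucc + 1 = g i.succ + 1 := hi
        have := h3 i (by omega)
        show sgn s (g i.castSucc + 1) = c (i + 1)
        rw [sgn_succ]
        exact this

/-- The number of labellings, by a recursion. -/
def hc : ℕ → ℕ → Bool → (ℕ → Bool) → ℕ
  | 0, k, _, _ => k
  | _ + 1, 0, _, _ => 0
  | n + 1, k + 1, s, c => hc (n + 1) k (!s) c +
      (if c 0 = s then hc n (k + 1) s (fun j => c (j + 1))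
        else hc n k (!s) (fun j => c (j + 1)))

theorem hc_zero (n : ℕ) (s : Bool) (c : ℕ → Bool) : hc n 0 s c = 0 := by
  cases n <;> simp [hc]

theorem hc_base (k : ℕ) (s : Bool) (c : ℕ → Bool) : hc 0 k s c = k := by
  simp [hc]

theorem card_LabF_zero (n : ℕ) (s : Bool) (c : ℕ → Bool) : (LabF n 0 s c).card = 0 := by
  rw [Finset.card_eq_zero, Finset.eq_empty_iff_forall_notMem]
  intro f hf
  rw [mem_LabF] at hf
  exact absurd (hf.1 0) (by omega)

theorem card_LabF (n : ℕ) : ∀ (k : ℕ) (s : Bool) (c : ℕ → Bool),
    (LabF n k s c).card = hc n k s c := by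
  induction n with
  | zero =>
    intro k
    induction k with
    | zero =>
      intro s c
      rw [card_LabF_zero, hc_zero]
    | succ k ih =>
      intro s c
      classical
      rw [← Finset.card_filter_add_card_filter_not (s := LabF 0 (k + 1) s c) (fun f => f 0 = 0),
        filter_pos, Finset.card_image_of_injective, ih]
      · have : (LabF 0 (k + 1) s c).filter (fun f => f 0 = 0) = {fun _ => 0} := by
          ext f
          simp only [Finset.mem_filter, mem_LabF, Finset.mem_singleton]
          constructor
          · rintro ⟨_, h⟩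
            funext j
            have hj : j = 0 := Fin.ext (by omega)
            rw [hj]
            exact h
          · rintro rfl
            refine ⟨⟨fun _ => Nat.succ_pos k, fun _ _ _ => le_rfl, fun j => j.elim0⟩, rfl⟩
        rw [this, Finset.card_singleton, hc_base, hc_base]
        omega
      · intro g g' h
        funext j
        have := congrFun h j
        simpa using this
  | succ n ihn =>
    intro k
    induction k with
    | zero =>
      intro s c
      rw [card_LabF_zero, hc_zero]
    | succ k ih =>
      intro s c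
      classical
      rw [← Finset.card_filter_add_card_filter_not (s := LabF (n + 1) (k + 1) s c)
        (fun f => f 0 = 0), filter_pos, Finset.card_image_of_injective, ih]
      · rw [hc, add_comm]
        congr 1
        by_cases hc0 : c 0 = s
        · rw [if_pos hc0, filter_zero_eq n k s c hc0, Finset.card_image_of_injective, ihn]
          intro g g' h
          exact Fin.cons_right_injective (α := fun _ => ℕ) (x₀ := 0) h
        · rw [if_neg hc0, filter_zero_ne n k s c hc0, Finset.card_image_of_injective, ihn]
          intro g g' h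
          have := Fin.cons_right_injective (α := fun _ => ℕ) (x₀ := 0) h
          funext j
          have := congrFun this j
          simpa using this
      · intro g g' h
        funext j
        have := congrFun h j
        simpa using this

/-- The number of sign changes in `s, c 0, c 1, ..., c (n - 1)`. -/
def tr : ℕ → Bool → (ℕ → Bool) → ℕ
  | 0, _, _ => 0
  | n + 1, s, c => (if c 0 = s then 0 else 1) + tr n (c 0) (fun j => c (j + 1))

theorem not_eq_of_ne {a b : Bool} (h : a ≠ b) : (!b) = a := by
  cases a <;> cases b <;> simp_all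

theorem hc_pos (n : ℕ) : ∀ (k : ℕ) (s : Bool) (c : ℕ → Bool),
    0 < hc n k s c ↔ tr n s c < k := by
  induction n with
  | zero => intro k s c; rw [hc_base]; rfl
  | succ n ihn =>
    intro k
    induction k with
    | zero =>
      intro s c
      rw [hc_zero]
      omega
    | succ k ih =>
      intro s c
      rw [hc, tr]
      by_cases h : c 0 = s
      · rw [if_pos h, if_pos h, zero_add, Nat.add_pos_iff_pos_or_pos, ih, ihn, tr]
        have hne : c 0 ≠ !s := by rw [h]; cases s <;> simp
        rw [if_neg hne, h]
        omega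
      · rw [if_neg h, if_neg h, Nat.add_pos_iff_pos_or_pos, ih, ihn, tr, not_eq_of_ne h,
          if_pos rfl]
        omega

/-- The generating function. -/
noncomputable def Hs (n : ℕ) (s : Bool) (c : ℕ → Bool) : PowerSeries ℤ :=
  PowerSeries.mk (fun k => (hc n k s c : ℤ))

theorem Hs_succ (n : ℕ) (s : Bool) (c : ℕ → Bool) :
    Hs (n + 1) s c = PowerSeries.X * Hs (n + 1) (!s) c +
      (if c 0 = s then Hs n s (fun j => c (j + 1))
        else PowerSeries.X * Hs n (!s) (fun j => c (j + 1))) := by
  ext k
  cases k with
  | zero =>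
    rw [map_add]
    by_cases h : c 0 = s
    · rw [if_pos h]
      simp [Hs, hc_zero]
    · rw [if_neg h]
      simp [Hs, hc_zero]
  | succ k =>
    rw [map_add, PowerSeries.coeff_succ_X_mul]
    by_cases h : c 0 = s
    · rw [if_pos h]
      simp only [Hs, PowerSeries.coeff_mk]
      rw [hc, if_pos h]
      push_cast
      rfl
    · rw [if_neg h, PowerSeries.coeff_succ_X_mul]
      simp only [Hs, PowerSeries.coeff_mk]
      rw [hc, if_neg h]
      push_cast
      rfl

theorem Hs_step (n : ℕ) (s : Bool) (c : ℕ → Bool) :
    (1 - PowerSeries.X ^ 2) * Hs (n + 1) s c =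
      (if c 0 = s then 1 + PowerSeries.X ^ 2 else 2 * PowerSeries.X) *
        Hs n (c 0) (fun j => c (j + 1)) := by
  have hA := Hs_succ n (c 0) c
  have hB := Hs_succ n (!(c 0)) c
  rw [if_pos rfl] at hA
  rw [if_neg (by cases c 0 <;> simp), Bool.not_not] at hB
  by_cases h : c 0 = s
  · rw [if_pos h, ← h]
    rw [hB] at hA
    linear_combination hA
  · rw [if_neg h]
    have hs : s = !(c 0) := by
      cases s <;> cases h0 : c 0 <;> simp_all
    rw [hs]
    rw [hA] at hB
    linear_combination hB

theorem Hs_eq (n : ℕ) : ∀ (s : Bool) (c : ℕ → Bool),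
    (1 - PowerSeries.X ^ 2) ^ n * Hs n s c * (1 + PowerSeries.X ^ 2) ^ (tr n s c) =
      (1 + PowerSeries.X ^ 2) ^ n * (2 * PowerSeries.X) ^ (tr n s c) *
        Hs 0 true (fun _ => true) := by
  induction n with
  | zero =>
    intro s c
    simp only [pow_zero, tr, one_mul, mul_one]
    ext k
    simp only [Hs, PowerSeries.coeff_mk, hc_base]
  | succ n ih =>
    intro s c
    have h1 := Hs_step n s c
    have h2 := ih (c 0) (fun j => c (j + 1))
    rw [tr]
    by_cases h : c 0 = s
    · rw [if_pos h] at h1 ⊢
      rw [zero_add]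
      calc _ = (1 - PowerSeries.X ^ 2) ^ n * ((1 - PowerSeries.X ^ 2) * Hs (n + 1) s c) *
            (1 + PowerSeries.X ^ 2) ^ (tr n (c 0) fun j => c (j + 1)) := by ring
        _ = _ := by
          rw [h1]
          linear_combination (1 + PowerSeries.X ^ 2) * h2
    · rw [if_neg h] at h1 ⊢
      calc _ = (1 - PowerSeries.X ^ 2) ^ n * ((1 - PowerSeries.X ^ 2) * Hs (n + 1) s c) *
            ((1 + PowerSeries.X ^ 2) *
              (1 + PowerSeries.X ^ 2) ^ (tr n (c 0) fun j => c (j + 1))) := by ring
        _ = _ := by
          rw [h1]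
          linear_combination (2 * PowerSeries.X) * (1 + PowerSeries.X ^ 2) * h2

theorem ne1 : (1 - PowerSeries.X ^ 2 : PowerSeries ℤ) ≠ 0 := by
  intro h
  have := congrArg (PowerSeries.coeff 0) h
  simp at this

theorem ne2 : (1 + PowerSeries.X ^ 2 : PowerSeries ℤ) ≠ 0 := by
  intro h
  have := congrArg (PowerSeries.coeff 0) h
  simp at this

theorem hc_congr {n : ℕ} {s s' : Bool} {c c' : ℕ → Bool} (h : tr n s c = tr n s' c') (k : ℕ) :
    hc n k s c = hc n k s' c' := by
  have h1 := Hs_eq n s c
  have h2 := Hs_eq n s' c'
  rw [h, ← h2] at h1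
  have h3 := mul_right_cancel₀ (pow_ne_zero _ ne2) h1
  have h4 := mul_left_cancel₀ (pow_ne_zero _ ne1) h3
  have h5 := congrArg (PowerSeries.coeff k) h4
  simp only [Hs, PowerSeries.coeff_mk] at h5
  exact_mod_cast h5

end Pool.Agent.Helper156.CWilf
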