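import Pool.Agent.Helper156.CWilf.Words

/-!
# Orders compatible with a periodic word
-/

set_option autoImplicit false

open scoped BigOperators

namespace Pool.Agent.Helper156.CWilf

/-- The value of `ρ` at time `t`. -/
def at' {n : ℕ} (ρ : Equiv.Perm (Fin (n + 1))) (t : ℕ) : Fin (n + 1) := ρ (Fin.ofNat (n + 1) t)

/-- The order `ρ` is compatible with the word `w`. -/
def Compat (ε : Bool) {n : ℕ} (w : ℕ → ℕ) (ρ : Equiv.Perm (Fin (n + 1))) : Prop :=
  ∀ s t : ℕ, at' ρ s < at' ρ t → w s ≤ w t ∧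
    (w s = w t → (at' ρ (s + 1) < at' ρ (t + 1) ↔ sgn ε (w s) = true))

theorem at_eq {n : ℕ} (ρ : Equiv.Perm (Fin (n + 1))) (s t : ℕ) :
    at' ρ s = at' ρ t ↔ s % (n + 1) = t % (n + 1) := by
  unfold at'
  rw [ρ.injective.eq_iff, Fin.ext_iff]
  rfl

theorem at_add {n : ℕ} (ρ : Equiv.Perm (Fin (n + 1))) (s : ℕ) :
    at' ρ (s + (n + 1)) = at' ρ s := by
  rw [at_eq, Nat.add_mod_right]

theorem w_congr {k N : ℕ} {w : ℕ → ℕ} (hw : PerP k N w) {s t : ℕ} (h : s % N = t % N) :
    w s = w t := by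
  rw [← hw.mod s, ← hw.mod t, h]

theorem w_congr_add {k N : ℕ} {w : ℕ → ℕ} (hw : PerP k N w) {s t : ℕ} (h : s % N = t % N)
    (m : ℕ) : w (s + m) = w (t + m) := by
  apply w_congr hw
  rw [Nat.add_mod, h, ← Nat.add_mod]

/-- The value of the encoding at time `t`. -/
noncomputable def X (ε : Bool) (k : ℕ) (w : ℕ → ℕ) (t : ℕ) : ℝ := Xi ε k (shift^[t] w)

theorem letters {k N : ℕ} {w : ℕ → ℕ} (hw : PerP k N w) (s : ℕ) :
    ∀ t, (shift^[s] w) t < k := by
  intro t
  rw [shift_iterate]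
  exact hw.1 _

theorem shift_shift (w : ℕ → ℕ) (s : ℕ) : shift (shift^[s] w) = shift^[s + 1] w := by
  rw [Function.iterate_succ_apply']

theorem zero_shift (w : ℕ → ℕ) (s : ℕ) : (shift^[s] w) 0 = w s := by
  rw [shift_iterate, zero_add]

theorem X_lt {k N : ℕ} (ε : Bool) {w : ℕ → ℕ} (hw : PerP k N w) {s t : ℕ} (h : w s < w t) :
    X ε k w s < X ε k w t := by
  apply Xi_lt ε k _ _ (letters hw s) (letters hw t)
  rw [zero_shift, zero_shift]
  exact h

theorem X_pos {k N : ℕ} (ε : Bool) {w : ℕ → ℕ} (hw : PerP k N w) {s t : ℕ} (h : w s = w t)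
    (hs : sgn ε (w s) = true) :
    X ε k w s < X ε k w t ↔ X ε k w (s + 1) < X ε k w (t + 1) := by
  unfold X
  rw [← shift_shift, ← shift_shift]
  apply Xi_pos_iff ε k _ _ (letters hw s) (letters hw t)
  · rw [zero_shift, zero_shift]
    exact h
  · rw [zero_shift]
    exact hs

theorem X_neg {k N : ℕ} (ε : Bool) {w : ℕ → ℕ} (hw : PerP k N w) {s t : ℕ} (h : w s = w t)
    (hs : sgn ε (w s) = false) :
    X ε k w s < X ε k w t ↔ X ε k w (t + 1) < X ε k w (s + 1) := by
  unfold X
  rw [← shift_shift, ← shift_shift]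
  apply Xi_neg_iff ε k _ _ (letters hw s) (letters hw t)
  · rw [zero_shift, zero_shift]
    exact h
  · rw [zero_shift]
    exact hs

theorem X_eq_letters {k N : ℕ} (ε : Bool) {w : ℕ → ℕ} (hw : PerP k N w) {s t : ℕ}
    (h : X ε k w s = X ε k w t) (m : ℕ) : w (s + m) = w (t + m) := by
  have := Xi_inj ε k m _ _ (letters hw s) (letters hw t) h
  rw [shift_iterate, shift_iterate] at this
  rw [add_comm s, add_comm t]
  exact this

theorem X_eq_succ {k N : ℕ} (ε : Bool) {w : ℕ → ℕ} (hw : PerP k N w) {s t : ℕ}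
    (h : X ε k w s = X ε k w t) : X ε k w (s + 1) = X ε k w (t + 1) := by
  have e : w s = w t := X_eq_letters ε hw h 0
  rcases sz_cases ε (w s) with ⟨hs, _⟩ | ⟨hs, _⟩
  · apply le_antisymm
    · rw [← not_lt, ← X_pos ε hw e.symm (by rw [← e]; exact hs), h]
      exact lt_irrefl _
    · rw [← not_lt, ← X_pos ε hw e hs, h]
      exact lt_irrefl _
  · apply le_antisymm
    · rw [← not_lt, ← X_neg ε hw e hs, h]
      exact lt_irrefl _
    · rw [← not_lt, ← X_neg ε hw e.symm (by rw [← e]; exact hs), h]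
      exact lt_irrefl _

theorem X_of_letters {k : ℕ} (ε : Bool) {w : ℕ → ℕ} {s t : ℕ}
    (h : ∀ m, w (s + m) = w (t + m)) : X ε k w s = X ε k w t := by
  unfold X
  congr 1
  funext m
  rw [shift_iterate, shift_iterate, add_comm m s, add_comm m t]
  exact h m

/-- Equal tails mean that the times agree modulo the minimal period. -/
theorem mod_mp_of_letters {k N : ℕ} (hN : 0 < N) {w : ℕ → ℕ} (hw : PerP k N w) {s t : ℕ}
    (h : ∀ m, w (s + m) = w (t + m)) : s % mp w = t % mp w := by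
  have hper : Function.IsPeriodicPt shift N w := (isPer_iff N w).2 hw.2
  have hmem : w ∈ Function.periodicPts shift := ⟨N, hN, hper⟩
  have h1 : shift^[s] w = shift^[t] w := by
    funext m
    rw [shift_iterate, shift_iterate, add_comm m s, add_comm m t]
    exact h m
  rw [← Function.iterate_mod_minimalPeriod_eq (n := s),
    ← Function.iterate_mod_minimalPeriod_eq (n := t)] at h1
  exact (Function.iterate_eq_iterate_iff_of_lt_minimalPeriod
    (Nat.mod_lt _ (mp_pos hN hw)) (Nat.mod_lt _ (mp_pos hN hw))).1 h1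

theorem letters_of_mod_mp {w : ℕ → ℕ} {s t : ℕ} (h : s % mp w = t % mp w) (m : ℕ) :
    w (s + m) = w (t + m) := by
  have hp : Function.Periodic w (mp w) := mp_per w
  rw [← hp.map_mod_nat (s + m), ← hp.map_mod_nat (t + m)]
  congr 1
  rw [Nat.add_mod, h, ← Nat.add_mod]

theorem X_eq_iff {k N : ℕ} (ε : Bool) (hN : 0 < N) {w : ℕ → ℕ} (hw : PerP k N w) {s t : ℕ} :
    X ε k w s = X ε k w t ↔ s % mp w = t % mp w :=
  ⟨fun h => mod_mp_of_letters hN hw (X_eq_letters ε hw h),
    fun h => X_of_letters ε (letters_of_mod_mp h)⟩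

theorem order_of_X {k n : ℕ} (ε : Bool) {w : ℕ → ℕ} (hw : PerP k (n + 1) w)
    (ρ : Equiv.Perm (Fin (n + 1))) (hc : Compat ε w ρ) :
    ∀ m s t, w (s + m) ≠ w (t + m) → X ε k w s < X ε k w t → at' ρ s < at' ρ t := by
  intro m
  induction m with
  | zero =>
    intro s t h1 h2
    have h1' : w s ≠ w t := h1
    by_contra hcon
    rcases lt_or_eq_of_le (not_lt.1 hcon) with h3 | h3
    · have h4 := (hc t s h3).1
      exact absurd (X_lt ε hw (lt_of_le_of_ne h4 (Ne.symm h1'))) (not_lt.2 h2.le)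
    · exact h1' (w_congr hw ((at_eq ρ t s).1 h3)).symm
  | succ m ih =>
    intro s t h1 h2
    by_contra hcon
    rcases lt_or_eq_of_le (not_lt.1 hcon) with h3 | h3
    · obtain ⟨h4, h5⟩ := hc t s h3
      rcases lt_or_eq_of_le h4 with h6 | h6
      · exact absurd (X_lt ε hw h6) (not_lt.2 h2.le)
      · have h7 := h5 h6
        have h8 : w (s + 1 + m) ≠ w (t + 1 + m) := by
          have e1 : s + 1 + m = s + (m + 1) := by ring
          have e2 : t + 1 + m = t + (m + 1) := by ring
          rw [e1, e2]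
          exact h1
        rcases sz_cases ε (w s) with ⟨hs, _⟩ | ⟨hs, _⟩
        · have h9 := ih (s + 1) (t + 1) h8 ((X_pos ε hw h6.symm hs).1 h2)
          have h10 := h7.2 (by rw [h6]; exact hs)
          exact absurd h9 (not_lt.2 h10.le)
        · have h9 := ih (t + 1) (s + 1) (Ne.symm h8) ((X_neg ε hw h6.symm hs).1 h2)
          have h10 := h7.1 h9
          rw [h6, hs] at h10
          exact absurd h10 (by simp)
    · exact h1 (w_congr_add hw ((at_eq ρ t s).1 h3) (m + 1)).symm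

theorem order_of_X' {k n : ℕ} {ε : Bool} {w : ℕ → ℕ} (hw : PerP k (n + 1) w)
    {ρ : Equiv.Perm (Fin (n + 1))} (hc : Compat ε w ρ) {s t : ℕ}
    (h : X ε k w s < X ε k w t) : at' ρ s < at' ρ t := by
  by_cases h1 : ∃ m, w (s + m) ≠ w (t + m)
  · obtain ⟨m, hm⟩ := h1
    exact order_of_X ε hw ρ hc m s t hm h
  · push Not at h1
    exact absurd (X_of_letters ε h1) h.ne

/-- The sign of a comparison. -/
def yy {n : ℕ} (ρ : Equiv.Perm (Fin (n + 1))) (p s : ℕ) : ℤ :=
  if at' ρ s < at' ρ (s + p) then 1 else -1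

theorem yy_succ {n : ℕ} {ε : Bool} {w : ℕ → ℕ}
    {ρ : Equiv.Perm (Fin (n + 1))} (hc : Compat ε w ρ) {p : ℕ} (hp : ∀ t, w (t + p) = w t)
    (hpN : p % (n + 1) ≠ 0) (s : ℕ) : yy ρ p (s + 1) = yy ρ p s * sz ε (w s) := by
  have hne : ∀ s, at' ρ s ≠ at' ρ (s + p) := by
    intro s h
    rw [at_eq] at h
    apply hpN
    have h2 : s + p ≡ s + 0 [MOD (n + 1)] := h.symm
    have h3 : p ≡ 0 [MOD (n + 1)] := Nat.ModEq.add_left_cancel' s h2
    rw [Nat.ModEq, Nat.zero_mod] at h3
    exact h3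
  have e1 : s + 1 + p = s + p + 1 := by ring
  unfold yy
  rw [e1]
  rcases lt_or_gt_of_ne (hne s) with h | h
  · obtain ⟨_, h2⟩ := hc s (s + p) h
    have h3 := h2 (hp s).symm
    rw [if_pos h, one_mul]
    rcases sz_cases ε (w s) with ⟨hs, hz⟩ | ⟨hs, hz⟩
    · rw [if_pos (h3.2 hs), hz]
    · rw [if_neg, hz]
      intro h4
      have := h3.1 h4
      rw [hs] at this
      exact absurd this (by simp)
  · obtain ⟨_, h2⟩ := hc (s + p) s h
    have h3 := h2 (hp s)
    rw [hp s] at h3
    rw [if_neg (not_lt.2 h.le)]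
    have hne2 := hne (s + 1)
    rw [e1] at hne2
    rcases sz_cases ε (w s) with ⟨hs, hz⟩ | ⟨hs, hz⟩
    · rw [if_neg (not_lt.2 (h3.2 hs).le), hz]
      rfl
    · rw [if_pos, hz]
      · rfl
      · rcases lt_or_gt_of_ne hne2 with h5 | h5
        · exact h5
        · have := h3.1 h5
          rw [hs] at this
          exact absurd this (by simp)

theorem yy_chi {n : ℕ} {ε : Bool} {w : ℕ → ℕ}
    {ρ : Equiv.Perm (Fin (n + 1))} (hc : Compat ε w ρ) {p : ℕ} (hp : ∀ t, w (t + p) = w t)
    (hpN : p % (n + 1) ≠ 0) (s : ℕ) : yy ρ p s = yy ρ p 0 * chi ε s w := by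
  induction s with
  | zero => simp [chi]
  | succ s ih => rw [yy_succ hc hp hpN, ih, chi_succ, mul_assoc]

theorem chi_eq_neg {n : ℕ} {ε : Bool} {w : ℕ → ℕ}
    {ρ : Equiv.Perm (Fin (n + 1))} (hc : Compat ε w ρ) {p : ℕ} (hp : ∀ t, w (t + p) = w t)
    (hpN : p % (n + 1) ≠ 0) : chi ε p w = -1 := by
  rcases chi_cases ε p w with h | h
  · exfalso
    have h1 : ∀ j, yy ρ p (p * j) = yy ρ p 0 := by
      intro j
      rw [yy_chi hc hp hpN, chi_mul ε p j w hp, h, one_pow, mul_one]
    have h2 : at' ρ (p * (n + 1)) = at' ρ (p * 0) := by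
      rw [at_eq]
      simp
    have hne : ∀ s, at' ρ s ≠ at' ρ (s + p) := by
      intro s h
      rw [at_eq] at h
      apply hpN
      have h2 : s + p ≡ s + 0 [MOD (n + 1)] := h.symm
      have h3 : p ≡ 0 [MOD (n + 1)] := Nat.ModEq.add_left_cancel' s h2
      rw [Nat.ModEq, Nat.zero_mod] at h3
      exact h3
    by_cases h0 : at' ρ 0 < at' ρ (0 + p)
    · have h3 : yy ρ p 0 = 1 := by unfold yy; rw [if_pos h0]
      have h4 : StrictMono (fun j => at' ρ (p * j)) := by
        apply strictMono_nat_of_lt_succ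
        intro j
        have h5 := h1 j
        rw [h3] at h5
        unfold yy at h5
        have e : p * (j + 1) = p * j + p := by ring
        show at' ρ (p * j) < at' ρ (p * (j + 1))
        rw [e]
        by_contra h6
        rw [if_neg h6] at h5
        exact absurd h5 (by norm_num)
      have h5 := h4 (Nat.succ_pos n)
      exact absurd h2 h5.ne'
    · have h3 : yy ρ p 0 = -1 := by unfold yy; rw [if_neg h0]
      have h4 : StrictAnti (fun j => at' ρ (p * j)) := by
        apply strictAnti_nat_of_succ_lt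
        intro j
        have h5 := h1 j
        rw [h3] at h5
        unfold yy at h5
        have e : p * (j + 1) = p * j + p := by ring
        show at' ρ (p * (j + 1)) < at' ρ (p * j)
        rw [e]
        by_cases h6 : at' ρ (p * j) < at' ρ (p * j + p)
        · rw [if_pos h6] at h5
          exact absurd h5 (by norm_num)
        · exact lt_of_le_of_ne (not_lt.1 h6) (hne _).symm
      have h5 := h4 (Nat.succ_pos n)
      exact absurd h2 h5.ne
  · exact h

/-- Two permutations inducing the same order are equal. -/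
theorem perm_unique {n : ℕ} {ρ ρ' : Equiv.Perm (Fin (n + 1))}
    (h : ∀ s t : ℕ, at' ρ s < at' ρ t → at' ρ' s < at' ρ' t) : ρ = ρ' := by
  have hat : ∀ (σ : Equiv.Perm (Fin (n + 1))) (i : Fin (n + 1)), at' σ (i : ℕ) = σ i := by
    intro σ i
    unfold at'
    congr 1
    exact Fin.ext (Nat.mod_eq_of_lt i.2)
  have hm : StrictMono (fun x => ρ' (ρ.symm x)) := by
    intro x y hxy
    have := h (ρ.symm x : ℕ) (ρ.symm y : ℕ)
    rw [hat, hat, hat, hat, Equiv.apply_symm_apply, Equiv.apply_symm_apply] at this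
    exact this hxy
  have hid : StrictMono (fun x : Fin (n + 1) => x) := fun _ _ h => h
  have hr : Set.range (fun x => ρ' (ρ.symm x)) = Set.range (fun x : Fin (n + 1) => x) := by
    have h1 : Function.Surjective (fun x => ρ' (ρ.symm x)) :=
      ρ'.surjective.comp ρ.symm.surjective
    have h2 : Function.Surjective (fun x : Fin (n + 1) => x) := fun x => ⟨x, rfl⟩
    rw [h1.range_eq, h2.range_eq]
  have he := (hm.range_inj hid).1 hr
  ext i
  have := congrFun he (ρ i)
  simp only [Equiv.symm_apply_apply] at this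
  rw [this]

/-- An order on times is realised by a permutation. -/
theorem build {n : ℕ} {L : Type*} [LinearOrder L] (ζ : ℕ → L)
    (hz : ∀ s t, ζ s = ζ t ↔ s % (n + 1) = t % (n + 1)) :
    ∃ ρ : Equiv.Perm (Fin (n + 1)), ∀ s t, at' ρ s < at' ρ t ↔ ζ s < ζ t := by
  classical
  have hinj : Function.Injective (fun i : Fin (n + 1) => ζ i) := by
    intro i j h
    have := (hz i j).1 h
    rw [Nat.mod_eq_of_lt i.2, Nat.mod_eq_of_lt j.2] at this
    exact Fin.ext this
  have hcard : (Finset.univ.image (fun i : Fin (n + 1) => ζ i)).card = n + 1 := by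
    rw [Finset.card_image_of_injective _ hinj, Finset.card_univ, Fintype.card_fin]
  let o := (Finset.univ.image (fun i : Fin (n + 1) => ζ i)).orderIsoOfFin hcard
  have hmem : ∀ i : Fin (n + 1), ζ i ∈ Finset.univ.image (fun i : Fin (n + 1) => ζ i) :=
    fun i => Finset.mem_image_of_mem _ (Finset.mem_univ i)
  let f : Fin (n + 1) → Fin (n + 1) := fun i => o.symm ⟨ζ i, hmem i⟩
  have hf : Function.Injective f := by
    intro i j h
    have h2 := o.symm.injective h
    exact hinj (Subtype.ext_iff.1 h2)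
  have hlt : ∀ i j, f i < f j ↔ ζ i < ζ j := by
    intro i j
    show o.symm _ < o.symm _ ↔ _
    rw [o.symm.lt_iff_lt]
    exact Iff.rfl
  refine ⟨Equiv.ofBijective f (Finite.injective_iff_bijective.1 hf), ?_⟩
  intro s t
  show f (Fin.ofNat (n + 1) s) < f (Fin.ofNat (n + 1) t) ↔ _
  rw [hlt]
  have e : ∀ s : ℕ, ζ (Fin.ofNat (n + 1) s : Fin (n + 1)) = ζ s := by
    intro s
    apply (hz _ _).2
    show (s % (n + 1)) % (n + 1) = _
    exact Nat.mod_mod s (n + 1)
  rw [e, e]

end Pool.Agent.Helper156.CWilf
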