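import Pool.Agent.Helper156.CWilf.Labels

/-!
# A real encoding of the twisted lexicographic order
-/

set_option autoImplicit false

open scoped BigOperators

namespace Pool.Agent.Helper156.CWilf

/-- The shift of a sequence. -/
def shift (w : ℕ → ℕ) : ℕ → ℕ := fun t => w (t + 1)

theorem shift_iterate (w : ℕ → ℕ) (s t : ℕ) : (shift^[s] w) t = w (t + s) := by
  induction s generalizing w t with
  | zero => rfl
  | succ s ih =>
    rw [Function.iterate_succ_apply, ih]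
    show w (t + s + 1) = w (t + (s + 1))
    rw [add_assoc]

/-- The sign of a letter as an integer. -/
def sz (ε : Bool) (a : ℕ) : ℤ := if sgn ε a = true then 1 else -1

theorem sz_cases (ε : Bool) (a : ℕ) : (sgn ε a = true ∧ sz ε a = 1) ∨
    (sgn ε a = false ∧ sz ε a = -1) := by
  unfold sz
  cases h : sgn ε a
  · right; simp
  · left; simp

theorem abs_sz (ε : Bool) (a : ℕ) : |(sz ε a : ℝ)| = 1 := by
  rcases sz_cases ε a with ⟨_, h⟩ | ⟨_, h⟩ <;> rw [h] <;> simp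

/-- The terms of the series. -/
noncomputable def trm (ε : Bool) (k : ℕ) (w : ℕ → ℕ) (m : ℕ) : ℝ :=
  (1 / (4 * (k + 1)) : ℝ) ^ m * (∏ j ∈ Finset.range m, (sz ε (w j) : ℝ)) * w m

/-- The encoding. -/
noncomputable def Xi (ε : Bool) (k : ℕ) (w : ℕ → ℕ) : ℝ := ∑' m, trm ε k w m

theorem delta_pos (k : ℕ) : (0 : ℝ) < 1 / (4 * (k + 1)) := by positivity

theorem delta_le (k : ℕ) : (1 / (4 * (k + 1)) : ℝ) ≤ 1 / 4 := by
  apply one_div_le_one_div_of_le (by norm_num)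
  have : (0 : ℝ) ≤ k := Nat.cast_nonneg k
  linarith

theorem abs_trm (ε : Bool) (k : ℕ) (w : ℕ → ℕ) (hw : ∀ t, w t < k) (m : ℕ) :
    |trm ε k w m| ≤ k * (1 / (4 * (k + 1)) : ℝ) ^ m := by
  unfold trm
  rw [abs_mul, abs_mul, Finset.abs_prod, abs_pow, abs_of_pos (delta_pos k)]
  rw [Finset.prod_congr rfl (fun j _ => abs_sz ε (w j)), Finset.prod_const_one, mul_one,
    Nat.abs_cast, mul_comm]
  apply mul_le_mul_of_nonneg_right
  · exact_mod_cast (hw m).le
  · exact (pow_pos (delta_pos k) m).le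

theorem summable_trm (ε : Bool) (k : ℕ) (w : ℕ → ℕ) (hw : ∀ t, w t < k) :
    Summable (trm ε k w) := by
  apply Summable.of_norm_bounded (g := fun m => k * (1 / (4 * (k + 1)) : ℝ) ^ m)
  · apply Summable.mul_left
    apply summable_geometric_of_lt_one (delta_pos k).le
    linarith [delta_le k]
  · intro m
    exact abs_trm ε k w hw m

theorem abs_Xi (ε : Bool) (k : ℕ) (w : ℕ → ℕ) (hw : ∀ t, w t < k) :
    |Xi ε k w| ≤ k * (4 / 3) := by
  have h1 : Summable (fun m => |trm ε k w m|) := (summable_trm ε k w hw).abs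
  have h2 : |Xi ε k w| ≤ ∑' m, |trm ε k w m| := by
    unfold Xi
    have := norm_tsum_le_tsum_norm (f := trm ε k w) h1
    exact this
  have hg : Summable (fun m => k * (1 / (4 * (k + 1)) : ℝ) ^ m) := by
    apply Summable.mul_left
    apply summable_geometric_of_lt_one (delta_pos k).le
    linarith [delta_le k]
  have h3 : ∑' m, |trm ε k w m| ≤ ∑' m : ℕ, k * (1 / (4 * (k + 1)) : ℝ) ^ m :=
    h1.tsum_le_tsum (fun m => abs_trm ε k w hw m) hg
  have h4 : ∑' m : ℕ, k * (1 / (4 * (k + 1)) : ℝ) ^ m = k * (1 - 1 / (4 * (k + 1)) : ℝ)⁻¹ := by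
    rw [tsum_mul_left, tsum_geometric_of_lt_one (delta_pos k).le (by linarith [delta_le k])]
  have h5 : (1 - 1 / (4 * (k + 1)) : ℝ)⁻¹ ≤ 4 / 3 := by
    rw [inv_le_comm₀ (by linarith [delta_le k]) (by norm_num)]
    linarith [delta_le k]
  have hk : (0 : ℝ) ≤ k := Nat.cast_nonneg k
  calc |Xi ε k w| ≤ k * (1 - 1 / (4 * (k + 1)) : ℝ)⁻¹ := by rw [← h4]; exact h2.trans h3
    _ ≤ k * (4 / 3) := mul_le_mul_of_nonneg_left h5 hk

theorem Xi_rec (ε : Bool) (k : ℕ) (w : ℕ → ℕ) (hw : ∀ t, w t < k) :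
    Xi ε k w = w 0 + (1 / (4 * (k + 1)) : ℝ) * sz ε (w 0) * Xi ε k (shift w) := by
  unfold Xi
  rw [(summable_trm ε k w hw).tsum_eq_zero_add]
  congr 1
  · simp [trm]
  · rw [← tsum_mul_left]
    congr 1
    funext m
    unfold trm
    rw [Finset.prod_range_succ']
    show _ = _ * ((1 / (4 * (k + 1)) : ℝ) ^ m * (∏ j ∈ Finset.range m, (sz ε (w (j + 1)) : ℝ)) *
      (w (m + 1) : ℝ))
    ring

theorem Xi_small (ε : Bool) (k : ℕ) (w : ℕ → ℕ) (hw : ∀ t, w t < k) :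
    |(1 / (4 * (k + 1)) : ℝ) * sz ε (w 0) * Xi ε k (shift w)| ≤ 1 / 3 := by
  rw [abs_mul, abs_mul, abs_sz, mul_one, abs_of_pos (delta_pos k)]
  have h1 := abs_Xi ε k (shift w) (fun t => hw (t + 1))
  have hk : (0 : ℝ) ≤ k := Nat.cast_nonneg k
  calc (1 / (4 * (k + 1)) : ℝ) * |Xi ε k (shift w)| ≤ (1 / (4 * (k + 1)) : ℝ) * (k * (4 / 3)) :=
        mul_le_mul_of_nonneg_left h1 (delta_pos k).le
    _ ≤ 1 / 3 := by
        rw [div_mul_eq_mul_div, one_mul, div_le_iff₀ (by positivity)]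
        linarith

theorem Xi_lt (ε : Bool) (k : ℕ) (w w' : ℕ → ℕ) (hw : ∀ t, w t < k) (hw' : ∀ t, w' t < k)
    (h : w 0 < w' 0) : Xi ε k w < Xi ε k w' := by
  rw [Xi_rec ε k w hw, Xi_rec ε k w' hw']
  have h1 := abs_le.1 (Xi_small ε k w hw)
  have h2 := abs_le.1 (Xi_small ε k w' hw')
  have h3 : (w 0 : ℝ) + 1 ≤ w' 0 := by exact_mod_cast h
  linarith [h1.2, h2.1]

theorem Xi_pos_iff (ε : Bool) (k : ℕ) (w w' : ℕ → ℕ) (hw : ∀ t, w t < k) (hw' : ∀ t, w' t < k)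
    (h : w 0 = w' 0) (hs : sgn ε (w 0) = true) :
    Xi ε k w < Xi ε k w' ↔ Xi ε k (shift w) < Xi ε k (shift w') := by
  rw [Xi_rec ε k w hw, Xi_rec ε k w' hw', ← h]
  have : sz ε (w 0) = 1 := by unfold sz; rw [if_pos hs]
  rw [this]
  push_cast
  rw [mul_one, add_lt_add_iff_left, mul_lt_mul_iff_right₀ (delta_pos k)]

theorem Xi_neg_iff (ε : Bool) (k : ℕ) (w w' : ℕ → ℕ) (hw : ∀ t, w t < k) (hw' : ∀ t, w' t < k)
    (h : w 0 = w' 0) (hs : sgn ε (w 0) = false) :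
    Xi ε k w < Xi ε k w' ↔ Xi ε k (shift w') < Xi ε k (shift w) := by
  rw [Xi_rec ε k w hw, Xi_rec ε k w' hw', ← h]
  have : sz ε (w 0) = -1 := by unfold sz; rw [hs]; simp
  rw [this]
  push_cast
  rw [add_lt_add_iff_left, mul_neg_one, neg_mul, neg_mul, neg_lt_neg_iff,
    mul_lt_mul_iff_right₀ (delta_pos k)]

theorem Xi_inj (ε : Bool) (k : ℕ) : ∀ (t : ℕ) (w w' : ℕ → ℕ), (∀ t, w t < k) → (∀ t, w' t < k) →
    Xi ε k w = Xi ε k w' → w t = w' t := by
  have h0 : ∀ (w w' : ℕ → ℕ), (∀ t, w t < k) → (∀ t, w' t < k) →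
      Xi ε k w = Xi ε k w' → w 0 = w' 0 ∧ Xi ε k (shift w) = Xi ε k (shift w') := by
    intro w w' hw hw' h
    have e0 : w 0 = w' 0 := by
      rcases lt_trichotomy (w 0) (w' 0) with h1 | h1 | h1
      · exact absurd h (Xi_lt ε k w w' hw hw' h1).ne
      · exact h1
      · exact absurd h (Xi_lt ε k w' w hw' hw h1).ne'
    refine ⟨e0, ?_⟩
    rcases sz_cases ε (w 0) with ⟨hs, _⟩ | ⟨hs, _⟩
    · apply le_antisymm
      · rw [← not_lt, ← Xi_pos_iff ε k w' w hw' hw e0.symm (by rw [← e0]; exact hs), h]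
        exact lt_irrefl _
      · rw [← not_lt, ← Xi_pos_iff ε k w w' hw hw' e0 hs, h]
        exact lt_irrefl _
    · apply le_antisymm
      · rw [← not_lt, ← Xi_neg_iff ε k w w' hw hw' e0 hs, h]
        exact lt_irrefl _
      · rw [← not_lt, ← Xi_neg_iff ε k w' w hw' hw e0.symm (by rw [← e0]; exact hs), h]
        exact lt_irrefl _
  intro t
  induction t with
  | zero => exact fun w w' hw hw' h => (h0 w w' hw hw' h).1
  | succ t ih =>
    intro w w' hw hw' h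
    exact ih (shift w) (shift w') (fun t => hw (t + 1)) (fun t => hw' (t + 1))
      (h0 w w' hw hw' h).2

end Pool.Agent.Helper156.CWilf
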