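import Pool.Agent.Helper156.CWilf.Fibres

/-!
# From words to permutations
-/

set_option autoImplicit false

open scoped BigOperators

namespace Pool.Agent.Helper156.CWilf

/-- The cyclic permutation with orbit order `ρ`. -/
def pic {n : ℕ} (ρ : Equiv.Perm (Fin (n + 1))) : Equiv.Perm (Fin (n + 1)) :=
  (ρ.symm.trans (Equiv.addRight (1 : Fin (n + 1)))).trans ρ

theorem pic_at {n : ℕ} (ρ : Equiv.Perm (Fin (n + 1))) (t : ℕ) :
    pic ρ (at' ρ t) = at' ρ (t + 1) := by
  unfold pic at'
  simp only [Equiv.trans_apply, Equiv.symm_apply_apply, Equiv.coe_addRight]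
  congr 1
  apply Fin.ext
  rw [Fin.val_add]
  show (t % (n + 1) + 1 % (n + 1)) % (n + 1) = (t + 1) % (n + 1)
  rw [← Nat.add_mod]

theorem at_val {n : ℕ} (ρ : Equiv.Perm (Fin (n + 1))) (i : Fin (n + 1)) :
    at' ρ (i : ℕ) = ρ i := by
  unfold at'
  congr 1
  exact Fin.ext (Nat.mod_eq_of_lt i.2)

theorem at_symm {n : ℕ} (ρ : Equiv.Perm (Fin (n + 1))) (x : Fin (n + 1)) :
    at' ρ (ρ.symm x : ℕ) = x := by
  rw [at_val, Equiv.apply_symm_apply]

/-- The ascent sequence. -/
def cc {n : ℕ} (π : Equiv.Perm (Fin (n + 1))) (j : ℕ) : Bool :=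
  if h : j < n then decide (π (Fin.castSucc ⟨j, h⟩) < π (Fin.succ ⟨j, h⟩)) else false

theorem cc_fin {n : ℕ} (π : Equiv.Perm (Fin (n + 1))) (j : Fin n) :
    cc π (j : ℕ) = decide (π j.castSucc < π j.succ) := by
  unfold cc
  rw [dif_pos j.2]

theorem all_pairs {n k : ℕ} {ε : Bool} {π : Equiv.Perm (Fin (n + 1))} {f : Fin (n + 1) → ℕ}
    (hf : LabP n k ε (cc π) f) : ∀ (m : ℕ) (x y : Fin (n + 1)), (y : ℕ) = (x : ℕ) + 1 + m →
      f x = f y → (sgn ε (f x) = true → π x < π y) ∧ (sgn ε (f x) = false → π y < π x) := by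
  obtain ⟨h1, h2, h3⟩ := hf
  have step : ∀ (x y : Fin (n + 1)), (y : ℕ) = (x : ℕ) + 1 →
      f x = f y → (sgn ε (f x) = true → π x < π y) ∧ (sgn ε (f x) = false → π y < π x) := by
    intro x y hxy he
    have hx : (x : ℕ) < n := by
      have := y.2
      omega
    have ex : x = Fin.castSucc ⟨x, hx⟩ := Fin.ext rfl
    have ey : y = Fin.succ ⟨x, hx⟩ := Fin.ext hxy
    have h4 := h3 ⟨x, hx⟩
    rw [cc_fin, ← ex, ← ey] at h4
    have h5 := h4 he
    constructor
    · intro h6
      rw [h6] at h5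
      exact of_decide_eq_true h5.symm
    · intro h6
      rw [h6] at h5
      have h7 := of_decide_eq_false h5.symm
      rcases lt_or_eq_of_le (not_lt.1 h7) with h8 | h8
      · exact h8
      · exfalso
        have := π.injective h8
        rw [this] at hxy
        omega
  intro m
  induction m with
  | zero => exact fun x y hxy he => step x y hxy he
  | succ m ih =>
    intro x y hxy he
    have hz : (x : ℕ) + 1 + m < n + 1 := by
      have := y.2
      omega
    have e1 : f x ≤ f ⟨(x : ℕ) + 1 + m, hz⟩ := h2 (by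
      rw [Fin.le_def]
      show (x : ℕ) ≤ (x : ℕ) + 1 + m
      omega)
    have e2 : f ⟨(x : ℕ) + 1 + m, hz⟩ ≤ f y := h2 (by
      rw [Fin.le_def]
      show (x : ℕ) + 1 + m ≤ (y : ℕ)
      omega)
    have e3 : f x = f ⟨(x : ℕ) + 1 + m, hz⟩ := by omega
    have e4 : f ⟨(x : ℕ) + 1 + m, hz⟩ = f y := by omega
    have i1 := ih x ⟨(x : ℕ) + 1 + m, hz⟩ rfl e3
    have i2 := step ⟨(x : ℕ) + 1 + m, hz⟩ y (by
      show (y : ℕ) = (x : ℕ) + 1 + m + 1
      omega) e4
    rw [← e3] at i2
    exact ⟨fun h => (i1.1 h).trans (i2.1 h), fun h => (i2.2 h).trans (i1.2 h)⟩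

theorem all_pairs' {n k : ℕ} {ε : Bool} {π : Equiv.Perm (Fin (n + 1))} {f : Fin (n + 1) → ℕ}
    (hf : LabP n k ε (cc π) f) {x y : Fin (n + 1)} (hxy : x < y) (he : f x = f y) :
      (π x < π y ↔ sgn ε (f x) = true) := by
  have h := all_pairs hf ((y : ℕ) - (x : ℕ) - 1) x y (by
    have : (x : ℕ) < (y : ℕ) := hxy
    omega) he
  rcases sz_cases ε (f x) with ⟨hs, _⟩ | ⟨hs, _⟩
  · exact ⟨fun _ => hs, fun _ => h.1 hs⟩
  · constructor
    · intro h2
      exact absurd h2 (not_lt.2 (h.2 hs).le)
    · intro h2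
      rw [hs] at h2
      exact absurd h2 (by simp)

open Classical in
theorem filter_compat {n k : ℕ} (ε : Bool) (ρ : Equiv.Perm (Fin (n + 1))) :
    (W k (n + 1)).filter (fun w => Compat ε w ρ) =
      (LabF n k ε (cc (pic ρ))).image (fun f t => f (at' ρ t)) := by
  ext w
  rw [Finset.mem_filter, Finset.mem_image, mem_W (Nat.succ_pos n)]
  constructor
  · rintro ⟨hw, hc⟩
    refine ⟨fun x => w (ρ.symm x : ℕ), ?_, ?_⟩
    · rw [mem_LabF]
      refine ⟨fun j => hw.1 _, ?_, ?_⟩
      · intro x y hxy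
        rcases lt_or_eq_of_le hxy with h | h
        · exact (hc (ρ.symm x : ℕ) (ρ.symm y : ℕ) (by rw [at_symm, at_symm]; exact h)).1
        · rw [h]
      · intro j hj
        have hlt : j.castSucc < j.succ := Fin.castSucc_lt_succ
        have h1 := (hc (ρ.symm j.castSucc : ℕ) (ρ.symm j.succ : ℕ)
          (by rw [at_symm, at_symm]; exact hlt)).2 hj
        rw [← pic_at, ← pic_at, at_symm, at_symm] at h1
        rw [cc_fin]
        show sgn ε (w (ρ.symm j.castSucc : ℕ)) = _
        rcases sz_cases ε (w (ρ.symm j.castSucc : ℕ)) with ⟨hs, _⟩ | ⟨hs, _⟩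
        · rw [hs]
          symm
          rw [decide_eq_true_iff]
          exact h1.2 hs
        · rw [hs]
          symm
          rw [decide_eq_false_iff_not]
          intro h2
          have := h1.1 h2
          rw [hs] at this
          exact absurd this (by simp)
    · funext t
      show w (ρ.symm (at' ρ t) : ℕ) = w t
      unfold at'
      rw [Equiv.symm_apply_apply]
      exact hw.mod t
  · rintro ⟨f, hf, rfl⟩
    rw [mem_LabF] at hf
    refine ⟨⟨fun t => hf.1 _, fun t => by
      show f (at' ρ (t + (n + 1))) = f (at' ρ t)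
      rw [at_add]⟩, ?_⟩
    intro s t h
    refine ⟨hf.2.1 h.le, ?_⟩
    intro he
    have := all_pairs' hf h he
    rw [pic_at, pic_at] at this
    exact this

open Classical in
theorem card_filter_compat {n k : ℕ} (ε : Bool) (ρ : Equiv.Perm (Fin (n + 1))) :
    ((W k (n + 1)).filter (fun w => Compat ε w ρ)).card = hc n k ε (cc (pic ρ)) := by
  rw [filter_compat, Finset.card_image_of_injective, card_LabF]
  intro f g h
  funext x
  have := congrFun h (ρ.symm x : ℕ)
  simp only [at_symm] at this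
  exact this

theorem sum_hc {n k : ℕ} (ε : Bool) :
    ∑ ρ : Equiv.Perm (Fin (n + 1)), hc n k ε (cc (pic ρ)) = ∑ w ∈ W k (n + 1), A ε (n + 1) w := by
  classical
  have h1 : ∀ ρ : Equiv.Perm (Fin (n + 1)), hc n k ε (cc (pic ρ)) =
      ∑ w ∈ W k (n + 1), if Compat ε w ρ then 1 else 0 := by
    intro ρ
    rw [← card_filter_compat, Finset.card_filter]
  have h2 : ∀ w ∈ W k (n + 1), A ε (n + 1) w =
      ∑ ρ : Equiv.Perm (Fin (n + 1)), if Compat ε w ρ then 1 else 0 := by
    intro w hw
    rw [mem_W (Nat.succ_pos n)] at hw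
    rw [← card_compat ε hw, Finset.card_filter]
  rw [Finset.sum_congr rfl (fun ρ _ => h1 ρ), Finset.sum_congr rfl h2, Finset.sum_comm]

theorem tri {R : Type*} [Fintype R] (f g : R → ℕ) (G : ℕ → ℕ → ℕ)
    (hf : ∀ ρ k, 0 < G (f ρ) k ↔ f ρ < k) (hg : ∀ ρ k, 0 < G (g ρ) k ↔ g ρ < k)
    (h : ∀ k, ∑ ρ, G (f ρ) k = ∑ ρ, G (g ρ) k) (r : ℕ) :
    (Finset.univ.filter (fun ρ => f ρ = r)).card =
      (Finset.univ.filter (fun ρ => g ρ = r)).card := by
  classical
  induction r using Nat.strong_induction_on with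
  | _ r ih =>
    have key : ∀ (f : R → ℕ), (∀ ρ k, 0 < G (f ρ) k ↔ f ρ < k) →
        ∑ ρ, G (f ρ) (r + 1) = ∑ s ∈ Finset.range (r + 1),
          (Finset.univ.filter (fun ρ => f ρ = s)).card * G s (r + 1) := by
      intro f hf
      rw [← Finset.sum_filter_add_sum_filter_not Finset.univ (fun ρ => f ρ < r + 1)]
      have e1 : ∑ ρ ∈ Finset.univ.filter (fun ρ => ¬ f ρ < r + 1), G (f ρ) (r + 1) = 0 := by
        apply Finset.sum_eq_zero
        intro ρ hρ
        rw [Finset.mem_filter] at hρ
        by_contra h1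
        exact hρ.2 ((hf ρ (r + 1)).1 (Nat.pos_of_ne_zero h1))
      rw [e1, add_zero, ← Finset.sum_fiberwise_of_maps_to
        (s := Finset.univ.filter (fun ρ => f ρ < r + 1)) (t := Finset.range (r + 1)) (g := f)]
      · apply Finset.sum_congr rfl
        intro s hs
        rw [Finset.mem_range] at hs
        rw [Finset.filter_filter]
        have e2 : Finset.univ.filter (fun ρ => f ρ < r + 1 ∧ f ρ = s) =
            Finset.univ.filter (fun ρ => f ρ = s) := by
          apply Finset.filter_congr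
          intro ρ _
          constructor
          · exact fun h => h.2
          · intro h
            exact ⟨by omega, h⟩
        rw [e2, Finset.sum_congr rfl (g := fun _ => G s (r + 1)), Finset.sum_const, smul_eq_mul]
        intro ρ hρ
        rw [Finset.mem_filter] at hρ
        rw [hρ.2]
      · intro ρ hρ
        rw [Finset.mem_filter] at hρ
        exact Finset.mem_range.2 hρ.2
    have e := h (r + 1)
    rw [key f hf, key g hg, Finset.sum_range_succ, Finset.sum_range_succ] at e
    have e2 : ∑ s ∈ Finset.range r, (Finset.univ.filter (fun ρ => f ρ = s)).card * G s (r + 1) =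
        ∑ s ∈ Finset.range r, (Finset.univ.filter (fun ρ => g ρ = s)).card * G s (r + 1) := by
      apply Finset.sum_congr rfl
      intro s hs
      rw [ih s (Finset.mem_range.1 hs)]
    rw [e2] at e
    have e3 := Nat.add_left_cancel e
    by_cases hG : 0 < G r (r + 1)
    · exact Nat.eq_of_mul_eq_mul_right hG e3
    · have n1 : (Finset.univ.filter (fun ρ => f ρ = r)).card = 0 := by
        rw [Finset.card_eq_zero]
        apply Finset.filter_eq_empty_iff.2
        intro ρ _ hρ
        apply hG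
        rw [← hρ, hf]
        omega
      have n2 : (Finset.univ.filter (fun ρ => g ρ = r)).card = 0 := by
        rw [Finset.card_eq_zero]
        apply Finset.filter_eq_empty_iff.2
        intro ρ _ hρ
        apply hG
        rw [← hρ, hg]
        omega
      rw [n1, n2]

open Classical in
/-- The number of labellings as a function of the number of sign changes. -/
noncomputable def GG (n r k : ℕ) : ℕ :=
  if h : ∃ p : Bool × (ℕ → Bool), tr n p.1 p.2 = r then hc n k h.choose.1 h.choose.2 else 0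

theorem GG_eq (n k : ℕ) (s : Bool) (c : ℕ → Bool) : GG n (tr n s c) k = hc n k s c := by
  unfold GG
  have h : ∃ p : Bool × (ℕ → Bool), tr n p.1 p.2 = tr n s c := ⟨(s, c), rfl⟩
  rw [dif_pos h]
  exact hc_congr h.choose_spec k

theorem card_tr_eq {n : ℕ} (hn : 2 ≤ n) (ε ε' : Bool) (r : ℕ) :
    (Finset.univ.filter (fun ρ : Equiv.Perm (Fin (n + 1)) => tr n ε (cc (pic ρ)) = r)).card =
      (Finset.univ.filter (fun ρ : Equiv.Perm (Fin (n + 1)) => tr n ε' (cc (pic ρ)) = r)).card := by
  apply tri (fun ρ : Equiv.Perm (Fin (n + 1)) => tr n ε (cc (pic ρ)))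
    (fun ρ : Equiv.Perm (Fin (n + 1)) => tr n ε' (cc (pic ρ))) (GG n)
  · intro ρ k
    rw [GG_eq, hc_pos]
  · intro ρ k
    rw [GG_eq, hc_pos]
  · intro k
    simp only [GG_eq]
    rw [sum_hc, sum_hc]
    exact sum_A_eq (by omega) ε ε'

theorem tr_le (n : ℕ) : ∀ (s : Bool) (c : ℕ → Bool), tr n s c ≤ n := by
  induction n with
  | zero => intro s c; rfl
  | succ n ih =>
    intro s c
    rw [tr]
    have := ih (c 0) (fun j => c (j + 1))
    split_ifs <;> omega

theorem card_tr_lt {n k : ℕ} (hk : 2 ≤ k) (ε ε' : Bool) :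
    (Finset.univ.filter (fun ρ : Equiv.Perm (Fin (n + 1)) => tr n ε (cc (pic ρ)) < k)).card =
      (Finset.univ.filter (fun ρ : Equiv.Perm (Fin (n + 1)) => tr n ε' (cc (pic ρ)) < k)).card := by
  classical
  by_cases hn : 2 ≤ n
  · have key : ∀ δ : Bool,
        (Finset.univ.filter (fun ρ : Equiv.Perm (Fin (n + 1)) => tr n δ (cc (pic ρ)) < k)).card =
        ∑ r ∈ Finset.range k, (Finset.univ.filter
          (fun ρ : Equiv.Perm (Fin (n + 1)) => tr n δ (cc (pic ρ)) = r)).card := by
      intro δ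
      rw [Finset.card_eq_sum_card_fiberwise (t := Finset.range k)
        (f := fun ρ : Equiv.Perm (Fin (n + 1)) => tr n δ (cc (pic ρ)))]
      · apply Finset.sum_congr rfl
        intro r hr
        rw [Finset.mem_range] at hr
        rw [Finset.filter_filter]
        congr 1
        apply Finset.filter_congr
        intro ρ _
        constructor
        · exact fun h => h.2
        · intro h
          exact ⟨by omega, h⟩
      · intro ρ hρ
        rw [Finset.mem_coe, Finset.mem_filter] at hρ
        exact Finset.mem_coe.2 (Finset.mem_range.2 hρ.2)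
    rw [key, key]
    apply Finset.sum_congr rfl
    intro r _
    exact card_tr_eq hn ε ε' r
  · congr 1
    apply Finset.filter_congr
    intro ρ _
    have h1 := tr_le n ε (cc (pic ρ))
    have h2 := tr_le n ε' (cc (pic ρ))
    constructor <;> intro _ <;> omega

end Pool.Agent.Helper156.CWilf
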