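import Pool.Agent.Helper156.CWilf.Real

/-!
# Periodic words and their signs
-/

set_option autoImplicit false

open scoped BigOperators

namespace Pool.Agent.Helper156.CWilf

/-- Periodic words with letters below `k`. -/
def PerP (k N : ℕ) (w : ℕ → ℕ) : Prop := (∀ t, w t < k) ∧ ∀ t, w (t + N) = w t

/-- The finite set of periodic words. -/
noncomputable def W (k N : ℕ) : Finset (ℕ → ℕ) :=
  open Classical in
  (Fintype.piFinset fun _ : Fin N => Finset.range k).image
    (fun v t => if h : 0 < N then v ⟨t % N, Nat.mod_lt _ h⟩ else 0)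

theorem PerP.mod {k N : ℕ} {w : ℕ → ℕ} (h : PerP k N w) (t : ℕ) : w (t % N) = w t :=
  Function.Periodic.map_mod_nat h.2 t

theorem mem_W {k N : ℕ} (hN : 0 < N) {w : ℕ → ℕ} : w ∈ W k N ↔ PerP k N w := by
  classical
  unfold W
  rw [Finset.mem_image]
  constructor
  · rintro ⟨v, hv, rfl⟩
    rw [Fintype.mem_piFinset] at hv
    constructor
    · intro t
      simp only [dif_pos hN]
      exact Finset.mem_range.1 (hv _)
    · intro t
      simp only [dif_pos hN]
      congr 1
      exact Fin.ext (Nat.add_mod_right t N)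
  · intro h
    refine ⟨fun i => w i, ?_, ?_⟩
    · rw [Fintype.mem_piFinset]
      intro i
      exact Finset.mem_range.2 (h.1 i)
    · funext t
      simp only [dif_pos hN]
      exact h.mod t

theorem sum_W (k N : ℕ) (hN : 0 < N) (f : ℕ → ℤ) :
    ∑ w ∈ W k N, ∏ j ∈ Finset.range N, f (w j) = (∑ a ∈ Finset.range k, f a) ^ N := by
  classical
  unfold W
  rw [Finset.sum_image]
  · have h1 : ∀ v : Fin N → ℕ, ∏ j ∈ Finset.range N,
        f (if h : 0 < N then v ⟨j % N, Nat.mod_lt _ h⟩ else 0) = ∏ i : Fin N, f (v i) := by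
      intro v
      rw [Finset.prod_range]
      apply Finset.prod_congr rfl
      intro i _
      rw [dif_pos hN]
      congr 2
      exact Fin.ext (Nat.mod_eq_of_lt i.2)
    rw [Finset.sum_congr rfl (fun v _ => h1 v)]
    rw [Finset.sum_prod_piFinset (Finset.range k) (fun _ : Fin N => f)]
    rw [Finset.prod_const, Finset.card_univ, Fintype.card_fin]
  · intro v _ v' _ h
    funext i
    have := congrFun h i
    simp only [dif_pos hN] at this
    have e : (⟨(i : ℕ) % N, Nat.mod_lt _ hN⟩ : Fin N) = i := Fin.ext (Nat.mod_eq_of_lt i.2)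
    rw [e] at this
    exact this

/-- The minimal period of a word. -/
noncomputable def mp (w : ℕ → ℕ) : ℕ := Function.minimalPeriod shift w

theorem isPer_iff (N : ℕ) (w : ℕ → ℕ) :
    Function.IsPeriodicPt shift N w ↔ ∀ t, w (t + N) = w t := by
  constructor
  · intro h t
    have := congrFun h t
    rw [shift_iterate] at this
    exact this
  · intro h
    funext t
    rw [shift_iterate]
    exact h t

theorem mp_dvd {k N : ℕ} {w : ℕ → ℕ} (h : PerP k N w) : mp w ∣ N :=
  ((isPer_iff N w).2 h.2).minimalPeriod_dvd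

theorem mp_pos {k N : ℕ} (hN : 0 < N) {w : ℕ → ℕ} (h : PerP k N w) : 0 < mp w :=
  ((isPer_iff N w).2 h.2).minimalPeriod_pos hN

theorem mp_per (w : ℕ → ℕ) : ∀ t, w (t + mp w) = w t :=
  (isPer_iff _ w).1 (Function.isPeriodicPt_minimalPeriod shift w)

/-- The words with minimal period `d`. -/
noncomputable def P (k d : ℕ) : Finset (ℕ → ℕ) := (W k d).filter (fun w => mp w = d)

theorem mem_P {k d : ℕ} (hd : 0 < d) {w : ℕ → ℕ} : w ∈ P k d ↔ (∀ t, w t < k) ∧ mp w = d := by
  unfold P
  rw [Finset.mem_filter, mem_W hd]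
  constructor
  · exact fun h => ⟨h.1.1, h.2⟩
  · intro h
    refine ⟨⟨h.1, ?_⟩, h.2⟩
    have := mp_per w
    rw [h.2] at this
    exact this

theorem per_of_dvd {w : ℕ → ℕ} {d N : ℕ} (hd : d ∣ N) (h : ∀ t, w (t + d) = w t) :
    ∀ t, w (t + N) = w t := by
  obtain ⟨m, rfl⟩ := hd
  intro t
  have := Function.Periodic.nat_mul (f := w) (c := d) h m
  have h2 := this t
  rw [mul_comm]
  simpa using h2

theorem filter_W {k N d : ℕ} (hN : 0 < N) (hd : d ∣ N) :
    (W k N).filter (fun w => mp w = d) = P k d := by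
  have hd0 : 0 < d := Nat.pos_of_dvd_of_pos hd hN
  ext w
  rw [Finset.mem_filter, mem_W hN, mem_P hd0]
  constructor
  · exact fun h => ⟨h.1.1, h.2⟩
  · intro h
    refine ⟨⟨h.1, ?_⟩, h.2⟩
    have := mp_per w
    rw [h.2] at this
    exact per_of_dvd hd this

theorem sum_divisors {k N : ℕ} (hN : 0 < N) (g : (ℕ → ℕ) → ℤ) :
    ∑ d ∈ N.divisors, ∑ w ∈ P k d, g w = ∑ w ∈ W k N, g w := by
  rw [← Finset.sum_fiberwise_of_maps_to (s := W k N) (t := N.divisors) (g := mp)]
  · apply Finset.sum_congr rfl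
    intro d hd
    rw [filter_W hN (Nat.dvd_of_mem_divisors hd)]
  · intro w hw
    rw [mem_W hN] at hw
    exact Nat.mem_divisors.2 ⟨mp_dvd hw, hN.ne'⟩

/-- The sign of the first `N` letters. -/
def chi (ε : Bool) (N : ℕ) (w : ℕ → ℕ) : ℤ := ∏ j ∈ Finset.range N, sz ε (w j)

theorem chi_add (ε : Bool) (s t : ℕ) (w : ℕ → ℕ) :
    chi ε (s + t) w = chi ε s w * ∏ j ∈ Finset.range t, sz ε (w (s + j)) := by
  unfold chi
  rw [Finset.prod_range_add]

theorem chi_succ (ε : Bool) (s : ℕ) (w : ℕ → ℕ) :
    chi ε (s + 1) w = chi ε s w * sz ε (w s) := by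
  unfold chi
  rw [Finset.prod_range_succ]

theorem chi_cases (ε : Bool) (N : ℕ) (w : ℕ → ℕ) : chi ε N w = 1 ∨ chi ε N w = -1 := by
  induction N with
  | zero => left; simp [chi]
  | succ N ih =>
    rw [chi_succ]
    rcases sz_cases ε (w N) with ⟨_, h⟩ | ⟨_, h⟩ <;> rcases ih with h2 | h2 <;> rw [h, h2] <;> simp

theorem chi_per_add (ε : Bool) (d t : ℕ) (w : ℕ → ℕ) (h : ∀ t, w (t + d) = w t) :
    chi ε (d + t) w = chi ε d w * chi ε t w := by
  rw [chi_add]
  congr 1
  unfold chi
  apply Finset.prod_congr rfl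
  intro j _
  rw [add_comm d j, h]

theorem chi_mul (ε : Bool) (d m : ℕ) (w : ℕ → ℕ) (h : ∀ t, w (t + d) = w t) :
    chi ε (d * m) w = chi ε d w ^ m := by
  induction m with
  | zero => simp [chi]
  | succ m ih =>
    rw [mul_add, mul_one, add_comm, chi_per_add ε d _ w h, ih, pow_succ, mul_comm]

/-- The sum of the signs of the primitive words. -/
noncomputable def Y (ε : Bool) (k d : ℕ) : ℤ := ∑ w ∈ P k d, chi ε d w

/-- The sum of the signs of the letters. -/
noncomputable def S (ε : Bool) (k : ℕ) : ℤ := ∑ a ∈ Finset.range k, sz ε a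

theorem sz_not (ε : Bool) (a : ℕ) : sz (!ε) a = - sz ε a := by
  unfold sz sgn
  by_cases h : a % 2 = 0
  · rw [if_pos h, if_pos h]
    cases ε <;> simp
  · rw [if_neg h, if_neg h]
    cases ε <;> simp

theorem chi_not (ε : Bool) (N : ℕ) (w : ℕ → ℕ) : chi (!ε) N w = (-1) ^ N * chi ε N w := by
  induction N with
  | zero => simp [chi]
  | succ N ih =>
    rw [chi_succ, chi_succ, ih, sz_not, pow_succ]
    ring

theorem S_true (k : ℕ) : S true k = if k % 2 = 0 then 0 else 1 := by
  unfold S
  induction k with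
  | zero => simp
  | succ k ih =>
    rw [Finset.sum_range_succ, ih]
    unfold sz sgn
    rcases Nat.mod_two_eq_zero_or_one k with h | h
    · have h2 : ¬ (k + 1) % 2 = 0 := by omega
      rw [if_pos h, if_neg h2, if_pos h]
      simp
    · have h2 : (k + 1) % 2 = 0 := by omega
      have h3 : ¬ k % 2 = 0 := by omega
      rw [if_neg h3, if_pos h2, if_neg h3]
      simp

theorem sum_Y_odd {k N : ℕ} (hN : Odd N) :
    ∑ d ∈ N.divisors, Y true k d = S true k := by
  have h1 : ∑ d ∈ N.divisors, Y true k d = ∑ d ∈ N.divisors, ∑ w ∈ P k d, chi true N w := by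
    apply Finset.sum_congr rfl
    intro d hd
    have hdN := Nat.dvd_of_mem_divisors hd
    have hd0 : 0 < d := Nat.pos_of_dvd_of_pos hdN hN.pos
    unfold Y
    apply Finset.sum_congr rfl
    intro w hw
    rw [mem_P hd0] at hw
    have hp := mp_per w
    rw [hw.2] at hp
    obtain ⟨m, rfl⟩ := hdN
    rw [chi_mul true d m w hp]
    have hm : Odd m := (Nat.odd_mul.1 hN).2
    rcases chi_cases true d w with h | h <;> rw [h]
    · simp
    · rw [hm.neg_one_pow]
  rw [h1, sum_divisors hN.pos]
  unfold chi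
  rw [sum_W k N hN.pos (sz true)]
  show (S true k) ^ N = S true k
  rw [S_true]
  split_ifs
  · exact zero_pow hN.pos.ne'
  · exact one_pow N

theorem Y_odd {k : ℕ} : ∀ N : ℕ, Odd N → 1 < N → Y true k N = 0 := by
  intro N
  induction N using Nat.strong_induction_on with
  | _ N ih =>
    intro hN h1
    have e1 := sum_Y_odd (k := k) (N := 1) (by decide)
    rw [Nat.divisors_one, Finset.sum_singleton] at e1
    have e2 := sum_Y_odd (k := k) hN
    rw [← Nat.cons_self_properDivisors hN.pos.ne', Finset.sum_cons] at e2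
    have e3 : ∑ d ∈ N.properDivisors, Y true k d = Y true k 1 := by
      apply Finset.sum_eq_single_of_mem
      · exact Nat.mem_properDivisors.2 ⟨one_dvd _, h1⟩
      · intro d hd hd1
        rw [Nat.mem_properDivisors] at hd
        have hd0 : 0 < d := Nat.pos_of_dvd_of_pos hd.1 hN.pos
        exact ih d hd.2 (hN.of_dvd_nat hd.1) (by omega)
    rw [e3, e1] at e2
    linarith

theorem Y_eq {k l : ℕ} (hl : 2 ≤ l) : Y false k l = Y true k l := by
  have h : Y false k l = (-1) ^ l * Y true k l := by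
    unfold Y
    rw [Finset.mul_sum]
    apply Finset.sum_congr rfl
    intro w _
    exact chi_not true l w
  rcases Nat.even_or_odd l with hl2 | hl2
  · rw [h, hl2.neg_one_pow, one_mul]
  · rw [h, Y_odd l hl2 (by omega), mul_zero]

theorem card_neg (ε : Bool) (k l : ℕ) :
    2 * (((P k l).filter (fun w => chi ε l w = -1)).card : ℤ) = (P k l).card - Y ε k l := by
  have h1 : Y ε k l = ∑ w ∈ P k l, (1 - 2 * (if chi ε l w = -1 then 1 else 0 : ℤ)) := by
    unfold Y
    apply Finset.sum_congr rfl
    intro w _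
    rcases chi_cases ε l w with h | h <;> rw [h] <;> norm_num
  rw [h1, Finset.sum_sub_distrib, ← Finset.mul_sum, Finset.sum_const, nsmul_eq_mul, mul_one,
    Finset.sum_boole]
  ring

theorem card_neg_eq {k l : ℕ} (hl : 2 ≤ l) (ε ε' : Bool) :
    ((P k l).filter (fun w => chi ε l w = -1)).card =
      ((P k l).filter (fun w => chi ε' l w = -1)).card := by
  have h1 := card_neg ε k l
  have h2 := card_neg ε' k l
  have h3 : Y ε k l = Y ε' k l := by
    cases ε <;> cases ε' <;> first | rfl | exact Y_eq hl | exact (Y_eq hl).symm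
  rw [h3, ← h2] at h1
  have : (((P k l).filter (fun w => chi ε l w = -1)).card : ℤ) =
      (((P k l).filter (fun w => chi ε' l w = -1)).card : ℤ) := by linarith
  exact_mod_cast this

/-- The number of orders compatible with a word. -/
noncomputable def A (ε : Bool) (N : ℕ) (w : ℕ → ℕ) : ℕ :=
  if mp w = N then 1 else if 2 * mp w = N ∧ chi ε (mp w) w = -1 then 2 else 0

theorem sum_A_eq {k N : ℕ} (hN : 3 ≤ N) (ε ε' : Bool) :
    ∑ w ∈ W k N, A ε N w = ∑ w ∈ W k N, A ε' N w := by
  have key : ∀ δ : Bool, ∑ w ∈ W k N, A δ N w = ((W k N).filter (fun w => mp w = N)).card +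
      2 * ((W k N).filter (fun w => 2 * mp w = N ∧ chi δ (mp w) w = -1)).card := by
    intro δ
    rw [Finset.card_filter, Finset.card_filter, Finset.mul_sum, ← Finset.sum_add_distrib]
    apply Finset.sum_congr rfl
    intro w _
    unfold A
    by_cases h1 : mp w = N
    · have h2 : ¬ (2 * mp w = N ∧ chi δ (mp w) w = -1) := by
        rintro ⟨h2, _⟩
        omega
      rw [if_pos h1, if_pos h1, if_neg h2, mul_zero, add_zero]
    · rw [if_neg h1, if_neg h1]
      by_cases h2 : 2 * mp w = N ∧ chi δ (mp w) w = -1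
      · rw [if_pos h2, if_pos h2, mul_one, zero_add]
      · rw [if_neg h2, if_neg h2, mul_zero, add_zero]
  rw [key, key]
  congr 2
  by_cases hev : ∃ l, N = 2 * l
  · obtain ⟨l, rfl⟩ := hev
    have hl : 2 ≤ l := by omega
    have h3 : ∀ δ : Bool, (W k (2 * l)).filter (fun w => 2 * mp w = 2 * l ∧ chi δ (mp w) w = -1)
        = (P k l).filter (fun w => chi δ l w = -1) := by
      intro δ
      rw [← filter_W (k := k) (N := 2 * l) (d := l) (by omega) (Dvd.intro_left 2 rfl),
        Finset.filter_filter]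
      apply Finset.filter_congr
      intro w _
      constructor
      · rintro ⟨a, b⟩
        have : mp w = l := by omega
        rw [this] at b
        exact ⟨this, b⟩
      · rintro ⟨a, b⟩
        refine ⟨by omega, ?_⟩
        rw [a]
        exact b
    rw [h3, h3]
    exact card_neg_eq hl ε ε'
  · have h3 : ∀ δ : Bool, (W k N).filter (fun w => 2 * mp w = N ∧ chi δ (mp w) w = -1) = ∅ := by
      intro δ
      apply Finset.filter_eq_empty_iff.2
      rintro w _ ⟨a, _⟩
      exact hev ⟨mp w, a.symm⟩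
    rw [h3, h3]

end Pool.Agent.Helper156.CWilf
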